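import Pool.Agent.K7.H48.UF.Rep
import Pool.Agent.K7.H48.UF.Alg3

/-!
# A group embeds in the unitary group of an ultrapower, but its von Neumann algebra does not

It is consistent with ZFC that there are a free ultrafilter `U` on `ℕ` and a group `Γ` such that
`Γ` embeds in the unitary group of the ultrapower of the hyperfinite II₁ factor with respect to
`U`, but the von Neumann algebra of `Γ` does not embed in this ultrapower.

Part (1) is a theorem of ZFC about a combinatorial principle; `Γ` is the full unitary group of the
ultrapower. In the hyperfinite factor there are unitaries `u a` for `a : ℕ` such that the 2-norm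
of the commutator of `u a` and `u b` is a positive number `c (r a b)` for `a ≠ b`, where `c` tends
to `0`. So the classes of the sequences `u (x ξ n)` and `u (x η n)` commute iff for no `k` are, for
almost all `n`, `x ξ n` and `x η n` different and `r (x ξ n) (x η n) = k`. The images under an
embedding of the canonical unitaries of these elements have commutators with 2-norm `0` or `√2`;
after an approximation by a countable set of elements of the factor this gives a representation
of the relation of commuting by functions `g ξ` and a relation `C`, which the principle excludes.

Part (2): a condition consists of an infinite set `a` of numbers, a countable set `w` of indices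
`ξ` and for each number `n` and `ξ ∈ w` a finite set `S n ξ` of possible values of `x ξ n`. The
number of the indices is the successor of the continuum. For `n ∉ a` there is one possible value,
for each `n` there is one possible value for almost all `ξ ∈ w`, and for each `ξ ∈ w` the sets
`S n ξ` become arbitrarily large along `a`, in the sense of a Ramsey property for `r`. The
ultrafilter is generated by the sets `a`. That it is an ultrafilter follows from a partition
theorem for such conditions, which is proved with an idempotent ultrafilter. Names for functions
`g ξ` and for `C` are read continuously from the generic functions; for two indices `ξ, η` with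
the same data the values of `C (g ξ n) (g η n)` can be made false for all `n ∈ a` while the colour
`r (x ξ n) (x η n)` tends to infinity.
-/

set_option autoImplicit false

namespace Pool.Agent.Results.MP_0dc0fb_an.ConsistentlyFails

open Pool.Agent.Helper234.Brown Pool.Agent.K7.H48.UF

/-- (1) Let `U` be a free ultrafilter on `ℕ`, `r` a symmetric map and `x ξ` functions from `ℕ` to
`ℕ`, for `ξ : ι`, such that for no functions `g ξ` from `ℕ` to `ℕ` and no relation `C` on `ℕ` the
following holds for all `ξ, η`: for no `k` are, for `U`-almost all `n`, `x ξ n` and `x η n`
different and `r (x ξ n) (x η n) = k`, if and only if `C (g ξ n) (g η n)` for `U`-almost all `n`.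
Then, for the hyperfinite II₁ factor `(R, t)`, there is a group `Γ` which embeds in the unitary
group of the ultrapower of `R` with respect to `U`, but there is no injective unital trace
preserving star homomorphism from the von Neumann algebra of `Γ` to this ultrapower.
(2) Some forcing notion forces, below every condition, that there are such `U` and `x`, for a set
`ι` and a symmetric map `r` of the ground model. -/
theorem result :
    (∀ (U : Ultrafilter ℕ) (ι : Type) (r : ℕ → ℕ → ℕ) (x : ι → ℕ → ℕ),
      (∀ m : ℕ, ∀ᶠ n in (U : Filter ℕ), m < n) → (∀ a b, r a b = r b a) →
      (∀ (g : ι → ℕ → ℕ) (C : ℕ → ℕ → Prop), ¬ ∀ ξ η,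
        ((∀ k, ¬ ∀ᶠ n in (U : Filter ℕ), x ξ n ≠ x η n ∧ r (x ξ n) (x η n) = k) ↔
          ∀ᶠ n in (U : Filter ℕ), C (g ξ n) (g η n))) →
      ∀ (R : Type) (_ : CStarAlgebra R) (t : PTr R), IsHyperfinite t →
        ∃ (Γ : Type) (_ : Group Γ), GroupEmbeds Γ t U ∧ ¬ AlgebraEmbeds Γ t U) ∧
    (∃ (P : Type) (_ : Preorder P) (ι : Type) (r : ℕ → ℕ → ℕ), Nonempty P ∧
      (∀ a b, r a b = r b a) ∧ ∀ p : P, p ∈ Unrep P ι r) := by
  refine ⟨fun U ι r x hU hr H R _ t hR => ⟨unitary (Ultrapower t U), inferInstance,
    ⟨MonoidHom.id _, fun _ _ h => h⟩, not_algebraEmbeds t hR U hU r hr x H⟩, ?_⟩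
  · let ι : Type := (Order.succ Cardinal.continuum.{0}).out
    have hι : Cardinal.continuum.{0} < Cardinal.mk ι := by
      rw [Cardinal.mk_out]
      exact Order.lt_succ _
    exact ⟨Cond ι, inferInstance, ι, Pool.Agent.K7.H48.UF.r, exists_cond, r_comm, unrep hι⟩

end Pool.Agent.Results.MP_0dc0fb_an.ConsistentlyFails
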